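import Pool.Agent.W123.FS.Main3

/-!
# The density of primes in short intervals changes at only `O(1)` places between `log N` and `N`

`piS n H` is the number `π(n, H)` of primes in `(n, n + H]`.

For every `δ > 0` there is `K` such that for all large `N` and every sequence of scales
`K log N ≤ T 0 < T 1 < ... < T R ≤ N` with `T (i + 1) ≥ 2 T i` (`R` is arbitrary, the ratios may be
arbitrarily large) there are at most `K` exceptional indices `i`; for every other `i`, all but at most
`δ N` integers `n < N` satisfy `|π(n, H) / H - π(n, H') / H'| ≤ δ / log N` for ALL real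
`H, H'` in `[T i, T (i + 1)]` at once.

Taking `T i = N ^ (ε (i + 1) / (R + 1))` with `R > K`: for all `δ, ε` there is `κ > 0` such that for
all large `N` there is `a` with `0 < a < a + κ ≤ ε` for which the primes of `(n, n + H]` have, for
all but `δ N` integers `n < N`, a density `θ(n) / log n` (up to `δ / log n`) which does not depend on
`H ∈ [n ^ a, n ^ (a + κ)]`.

Proof: the energies `∑ π(n, T)^2 / T^2` are bounded (upper bound sieve for prime pairs) and
essentially decreasing in `T`; where the energy does not drop, the variance of the densities at the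
lower scale inside the windows of the upper scale is small, and a maximal inequality controls all
intermediate scales at once.
-/

set_option autoImplicit false

open Filter Topology
open Pool.Agent.H357R2.SI

namespace Pool.Agent.Results.MP_31d0eb_nt.DensityAcrossScales

open Classical in
theorem result :
    ∀ δ : ℝ, 0 < δ → ∃ K : ℕ, ∀ᶠ N : ℕ in atTop, ∀ (R : ℕ) (T : ℕ → ℝ),
      (K : ℝ) * Real.log N ≤ T 0 → (∀ i < R, 2 * T i ≤ T (i + 1)) → T R ≤ N →
      ∃ B : Finset ℕ, B.card ≤ K ∧ ∀ i < R, i ∉ B →
        (((Finset.range N).filter (fun n : ℕ => ¬ ∀ H H' : ℝ,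
          T i ≤ H → H ≤ T (i + 1) → T i ≤ H' → H' ≤ T (i + 1) →
            |(piS n H : ℝ) / H - (piS n H' : ℝ) / H'| ≤ δ / Real.log N)).card : ℝ) ≤ δ * N := by
  intro δ hδ
  obtain ⟨K, hK⟩ := Pool.Agent.W123.FS.chain δ hδ
  refine ⟨K, ?_⟩
  filter_upwards [hK] with N hN R T h1 h2 h3
  exact hN R T h1 h2 h3

end Pool.Agent.Results.MP_31d0eb_nt.DensityAcrossScales
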