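import Pool.Agent.W123.GS.Loc
import Pool.Agent.W123.LR.Fin

set_option autoImplicit false

/-!
# All but boundedly many scales, in every interval of length `x ^ θ`

A dyadic scale `D = 2 ^ j`, `log n ≤ D`, is good at `n` if the primes have a constant density
`λ / log n` on `[n - D, n + D]` up to an error `δ D / log n`, for all subintervals simultaneously. For
every `θ > 0` almost all integers of EVERY interval `(X, X + Y]` with `X ^ θ ≤ Y ≤ X` have at most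
`K` bad scales below `Y`, and if `(X, X + Y]` always contains `≫ Y / log X` primes, then for a positive
proportion of its integers this holds with densities bounded from below.
-/

namespace Pool.Agent.Results.MP_31d0eb_nt.FewBadScales

open Finset Filter

/-- `(X, X + Y]` contains at least `c Y / log X` primes whenever `X ^ θ ≤ Y ≤ X` and `X` is large -/
def ShortIntervals (θ : ℝ) : Prop := ∃ c : ℝ, 0 < c ∧ ∃ X₀ : ℕ, 2 ≤ X₀ ∧
  ∀ X Y : ℕ, X₀ ≤ X → (X : ℝ) ^ θ ≤ Y → Y ≤ X →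
    c * Y / Real.log X ≤ (((Finset.Ioc X (X + Y)).filter Nat.Prime).card : ℝ)

/-- up to `δ` the primes have a constant density `lam / log n` with `c₁ ≤ lam ≤ c₂` on
`[n - D, n + D]` -/
def ConstantDensity (c₁ c₂ δ : ℝ) (n D : ℕ) : Prop :=
  ∃ lam : ℝ, c₁ ≤ lam ∧ lam ≤ c₂ ∧ ∀ u v : ℕ, n ≤ u + D → u ≤ v → v ≤ n + D →
    |(((Finset.Ioc u v).filter Nat.Prime).card : ℝ) - lam * ((v : ℝ) - u) / Real.log n| ≤
      δ * D / Real.log n

open Classical in
/-- the number of `j` with `log n ≤ 2 ^ j ≤ Y` for which the primes do not have a constant density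
on `[n - 2 ^ j, n + 2 ^ j]` -/
noncomputable def badScales (c₁ c₂ δ : ℝ) (Y n : ℕ) : ℕ :=
  ((Finset.range (Nat.log 2 Y + 1)).filter (fun j => Real.log n ≤ (2 : ℝ) ^ j ∧
    ¬ ConstantDensity c₁ c₂ δ n (2 ^ j))).card

open Pool.Agent.W123.RP Pool.Agent.W123.GS Pool.Agent.H357R2.SI

lemma cast_helper {a b : ℕ} (h : a ≤ b) : (a : ℝ) ≤ (b : ℝ) := by exact_mod_cast h

/-- the shifted primes -/
def PX (s : ℕ) (m : ℕ) : Prop := (m + s).Prime

open Classical in
lemma co_shift (s a b : ℕ) : co (PX s) a b = pc (a + s) (b + s) := by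
  unfold co pc
  apply Finset.card_bij (fun n _ => n + s)
  · intro n hn
    rw [mem_filter, mem_Ioc] at hn ⊢
    exact ⟨⟨by omega, by omega⟩, hn.2⟩
  · intro n _ m _ h
    omega
  · intro m hm
    rw [mem_filter, mem_Ioc] at hm
    refine ⟨m - s, ?_, by omega⟩
    rw [mem_filter, mem_Ioc]
    have e : m - s + s = m := by omega
    unfold PX
    rw [e]
    exact ⟨⟨by omega, by omega⟩, hm.2⟩

open Classical in
lemma good_shift (c₁ c₂ δ : ℝ) (hc₁ : 0 ≤ c₁) (hδ : 0 < δ) (X Y n j : ℕ) (hX : 3 ≤ X) (hYX : Y ≤ X)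
    (hn1 : Y < n) (hn2 : n ≤ 2 * Y) (hj : 2 ^ j ≤ Y)
    (h : Good (PX (X - Y)) c₁ c₂ (δ / 2) (Real.log X) n j) :
    ConstantDensity c₁ (2 * c₂) δ (n + (X - Y)) (2 ^ j) := by
  obtain ⟨lam, h1, h2, h3⟩ := h
  have hXr : (3 : ℝ) ≤ X := by exact_mod_cast hX
  have hL : 0 < Real.log X := Real.log_pos (by linarith)
  have hnX : (X : ℝ) ≤ ((n + (X - Y) : ℕ) : ℝ) := by
    have : X ≤ n + (X - Y) := by omega
    exact_mod_cast this
  have hnX2 : ((n + (X - Y) : ℕ) : ℝ) ≤ 2 * X := by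
    have : n + (X - Y) ≤ 2 * X := by omega
    exact_mod_cast this
  obtain ⟨l, hl⟩ : ∃ l : ℝ, l = Real.log ((n + (X - Y) : ℕ) : ℝ) := ⟨_, rfl⟩
  have hl1 : Real.log X ≤ l := by rw [hl]; exact Real.log_le_log (by linarith) hnX
  have hl2 : l ≤ 2 * Real.log X := by
    rw [hl]
    calc Real.log ((n + (X - Y) : ℕ) : ℝ) ≤ Real.log ((X : ℝ) ^ 2) :=
          Real.log_le_log (by linarith) (by nlinarith)
      _ = 2 * Real.log X := by rw [Real.log_pow]; norm_num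
  have hl0 : 0 < l := by linarith
  have hlam0 : 0 ≤ lam := hc₁.trans h1
  refine ⟨lam * (l / Real.log X), ?_, ?_, ?_⟩
  · have h4 : 1 ≤ l / Real.log X := by rw [le_div_iff₀ hL]; linarith
    nlinarith
  · have h4 : l / Real.log X ≤ 2 := by rw [div_le_iff₀ hL]; linarith
    have h5 : 0 ≤ l / Real.log X := by positivity
    nlinarith
  · intro u v hu huv hv
    obtain ⟨u', hu'⟩ : ∃ u', u = u' + (X - Y) := ⟨u - (X - Y), by omega⟩
    obtain ⟨v', hv'⟩ : ∃ v', v = v' + (X - Y) := ⟨v - (X - Y), by omega⟩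
    have h4 := h3 u' v' (by omega) (by omega) (by omega)
    rw [co_shift, ← hu', ← hv'] at h4
    have e1 : (v' : ℝ) - u' = (v : ℝ) - u := by rw [hu', hv']; push_cast; ring
    have e2 : lam * (l / Real.log X) * ((v : ℝ) - u) / l = lam * ((v : ℝ) - u) / Real.log X := by
      field_simp
    rw [e1] at h4
    rw [← hl, e2]
    unfold pc at h4
    refine h4.trans ?_
    push_cast
    rw [div_le_div_iff₀ hL hl0]
    have : (0 : ℝ) < δ * 2 ^ j := by positivity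
    calc δ / 2 * 2 ^ j * l ≤ δ / 2 * 2 ^ j * (2 * Real.log X) := by gcongr
      _ = δ * 2 ^ j * Real.log X := by ring

open Classical in
lemma bad_shift (c₁ c₂ δ : ℝ) (hc₁ : 0 ≤ c₁) (hδ : 0 < δ) (X Y n : ℕ) (hX : 3 ≤ X) (hYX : Y ≤ X)
    (hn1 : Y < n) (hn2 : n ≤ 2 * Y) :
    badScales c₁ (2 * c₂) δ Y (n + (X - Y)) ≤
      ((range (Nat.log 2 Y + 1)).filter (fun j => Real.log X ≤ (2 : ℝ) ^ j ∧
          ¬ Good (PX (X - Y)) c₁ c₂ (δ / 2) (Real.log X) n j)).card := by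
  unfold badScales
  apply card_le_card
  intro j hj
  rw [mem_filter, mem_range] at hj ⊢
  obtain ⟨h1, h2, h3⟩ := hj
  refine ⟨h1, ?_, ?_⟩
  · refine le_trans ?_ h2
    have hXr : (3 : ℝ) ≤ X := by exact_mod_cast hX
    apply Real.log_le_log (by linarith)
    have : X ≤ n + (X - Y) := by omega
    exact_mod_cast this
  · intro hg
    apply h3
    apply good_shift c₁ c₂ δ hc₁ hδ X Y n j hX hYX hn1 hn2 _ hg
    rcases Nat.eq_zero_or_pos Y with h0 | h0
    · omega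
    · have h4 : 2 ^ j ≤ 2 ^ (Nat.log 2 Y) := Nat.pow_le_pow_right (by norm_num) (by omega)
      exact h4.trans (Nat.pow_log_le_self 2 (by omega))

open Classical in
/-- the common analytic input, in shifted coordinates -/
lemma input (θ : ℝ) (h0 : 0 < θ) (h1 : θ ≤ 1) : ∃ C1 C2 : ℝ, 0 < C1 ∧ 0 < C2 ∧ ∀ B0 : ℝ,
    ∀ᶠ X : ℕ in atTop, ∀ Y : ℕ, (X : ℝ) ^ θ ≤ Y → Y ≤ X → 3 ≤ X ∧
      2 ≤ Real.log X ∧ B0 * Real.log X ^ 2 ≤ Y ∧
      (co (PX (X - Y)) 0 (4 * Y) : ℝ) ≤ C1 * Y / Real.log X ∧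
      ∑ n ∈ Finset.Ico Y (2 * Y + 1),
        ((co (PX (X - Y)) n (n + ⌊Real.log X⌋₊) : ℝ)) ^ 2 ≤ C2 * Y := by
  obtain ⟨C, hC, u0, hmom⟩ := Pool.Agent.W123.LR.second_moment_local θ h0
  obtain ⟨Y₀, hY₀2, hbt⟩ := Pool.Agent.H932R4.MO.bt3
  refine ⟨12 / θ, C + 1, by positivity, by linarith, ?_⟩
  intro B0
  have hXr : Tendsto (fun X : ℕ => (X : ℝ)) atTop atTop := tendsto_natCast_atTop_atTop
  have hlogX : Tendsto (fun X : ℕ => Real.log (X : ℝ)) atTop atTop :=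
    Real.tendsto_log_atTop.comp hXr
  have hpow : Tendsto (fun X : ℕ => (X : ℝ) ^ θ) atTop atTop :=
    (tendsto_rpow_atTop h0).comp hXr
  have hpl : ∀ᶠ X : ℕ in atTop, (|B0| + 1) * Real.log X ^ 2 ≤ (X : ℝ) ^ θ := by
    have h := ((isLittleO_log_rpow_rpow_atTop 2 h0).comp_tendsto hXr).bound
      (by positivity : (0 : ℝ) < 1 / (|B0| + 1))
    filter_upwards [h, eventually_ge_atTop 1] with X hX hX1
    have hX1' : (1 : ℝ) ≤ X := by exact_mod_cast hX1
    have hl := Real.log_nonneg hX1'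
    simp only [Function.comp_def] at hX
    rw [Real.norm_of_nonneg (by positivity), Real.norm_of_nonneg (by positivity)] at hX
    have e : Real.log (X : ℝ) ^ (2 : ℝ) = Real.log (X : ℝ) ^ 2 := by
      rw [← Real.rpow_natCast]; norm_num
    rw [e] at hX
    have hb : 0 < |B0| + 1 := by positivity
    calc (|B0| + 1) * Real.log X ^ 2 ≤ (|B0| + 1) * (1 / (|B0| + 1) * (X : ℝ) ^ θ) := by gcongr
      _ = (X : ℝ) ^ θ := by field_simp
  filter_upwards [eventually_ge_atTop 3, hlogX.eventually_ge_atTop 2, hpl,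
    hpow.eventually_ge_atTop ((Y₀ : ℝ) + u0 + 1)] with X hX3 hL2 hpl hbig
  intro Y hY hYX
  have hX3r : (3 : ℝ) ≤ X := by exact_mod_cast hX3
  have hXpos : (0 : ℝ) < X := by linarith
  have hL0 : 0 < Real.log X := by linarith
  have hYbig : (Y₀ : ℝ) + u0 + 1 ≤ Y := hbig.trans hY
  have hYbign : Y₀ + u0 + 1 ≤ Y := by exact_mod_cast hYbig
  have hYpos : (0 : ℝ) < Y := by
    have : 0 < Y := by omega
    exact_mod_cast this
  have hsq : Real.log X ≤ Real.log X ^ 2 := by nlinarith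
  have hb : B0 ≤ |B0| := le_abs_self B0
  have hb0 : 0 ≤ |B0| := abs_nonneg _
  have hB : B0 * Real.log X ^ 2 ≤ Y := by
    refine le_trans ?_ (hpl.trans hY)
    have : 0 ≤ Real.log X ^ 2 := sq_nonneg _
    nlinarith
  have hLsqY : Real.log X ^ 2 ≤ Y := by
    refine le_trans ?_ (hpl.trans hY)
    have : 0 ≤ Real.log X ^ 2 := sq_nonneg _
    nlinarith
  obtain ⟨T, hT⟩ : ∃ T : ℕ, T = ⌊Real.log X⌋₊ := ⟨_, rfl⟩
  have hTL : (T : ℝ) ≤ Real.log X := by rw [hT]; exact Nat.floor_le hL0.le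
  have hTY : T ≤ Y := by
    have : (T : ℝ) ≤ Y := by linarith
    exact_mod_cast this
  refine ⟨hX3, hL2, hB, ?_, ?_⟩
  · rw [co_shift]
    have h3 := hbt (0 + (X - Y)) (4 * Y) (by omega)
    have e : 0 + (X - Y) + 4 * Y = 4 * Y + (X - Y) := by ring
    unfold pc
    rw [e] at h3
    refine h3.trans ?_
    have hlog : θ * Real.log X ≤ Real.log ((4 * Y : ℕ) : ℝ) := by
      rw [← Real.log_rpow hXpos]
      apply Real.log_le_log (by positivity)
      push_cast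
      linarith
    have h4 : 3 * ((4 * Y : ℕ) : ℝ) / Real.log ((4 * Y : ℕ) : ℝ) ≤ 3 * ((4 * Y : ℕ) : ℝ) / (θ * Real.log X) := by
      gcongr
    refine h4.trans (le_of_eq ?_)
    push_cast
    field_simp
    norm_num
  · rw [← hT]
    have h3 := hmom X Y T hX3 hY (by omega) hTY hTL
    have e1 : ∑ n ∈ Finset.Ico Y (2 * Y + 1), ((co (PX (X - Y)) n (n + T) : ℝ)) ^ 2 =
        ∑ n ∈ Finset.Ico X (X + 1 + Y), ((pc n (n + T) : ℝ)) ^ 2 := by
      apply Finset.sum_bij (fun n _ => n + (X - Y))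
      · intro n hn
        rw [mem_Ico] at hn ⊢
        omega
      · intro n _ m _ h
        omega
      · intro m hm
        rw [mem_Ico] at hm
        exact ⟨m - (X - Y), by rw [mem_Ico]; omega, by omega⟩
      · intro n _
        rw [co_shift]
        have : n + T + (X - Y) = n + (X - Y) + T := by ring
        rw [this]
    have e2 : ∑ n ∈ Finset.Ico X (X + 1 + Y), ((pc n (n + T) : ℝ)) ^ 2 =
        ((pc X (X + T) : ℝ)) ^ 2 + ∑ n ∈ Finset.Ico (X + 1) (X + 1 + Y), ((pc n (n + T) : ℝ)) ^ 2 :=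
      Finset.sum_eq_sum_Ico_succ_bot (by omega) _
    rw [e1, e2]
    have h5 : ((pc X (X + T) : ℝ)) ^ 2 ≤ Y := by
      have h6 : pc X (X + T) ≤ T := by
        unfold pc
        refine (card_filter_le _ _).trans ?_
        rw [Nat.card_Ioc]; omega
      have h7 : (pc X (X + T) : ℝ) ≤ Real.log X := by
        have : (pc X (X + T) : ℝ) ≤ T := by exact_mod_cast h6
        linarith
      calc ((pc X (X + T) : ℝ)) ^ 2 ≤ (Real.log X) ^ 2 := pow_le_pow_left₀ (Nat.cast_nonneg _) h7 2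
        _ ≤ (Y : ℝ) := hLsqY
    linarith

/-- counting in shifted coordinates -/
lemma card_shift (X Y : ℕ) (hYX : Y ≤ X) (F G : ℕ → Prop) [DecidablePred F] [DecidablePred G]
    (h : ∀ n, Y < n → n ≤ 2 * Y → F (n + (X - Y)) → G n) :
    ((Ioc X (X + Y)).filter F).card ≤ ((Ioc Y (2 * Y)).filter G).card := by
  apply Finset.card_le_card_of_injOn (fun n => n - (X - Y))
  · intro n hn
    rw [Finset.mem_coe, mem_filter, mem_Ioc] at hn
    rw [Finset.mem_coe, mem_filter, mem_Ioc]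
    beta_reduce
    refine ⟨by omega, h _ (by omega) (by omega) ?_⟩
    have e : n - (X - Y) + (X - Y) = n := by omega
    rw [e]; exact hn.2
  · intro n hn m hm h'
    rw [Finset.mem_coe, mem_filter, mem_Ioc] at hn hm
    simp only at h'
    omega

lemma card_shift' (X Y : ℕ) (F G : ℕ → Prop) [DecidablePred F] [DecidablePred G] (hYX : Y ≤ X)
    (h : ∀ n, Y < n → n ≤ 2 * Y → G n → F (n + (X - Y))) :
    ((Ioc Y (2 * Y)).filter G).card ≤ ((Ioc X (X + Y)).filter F).card := by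
  apply Finset.card_le_card_of_injOn (fun n => n + (X - Y))
  · intro n hn
    rw [Finset.mem_coe, mem_filter, mem_Ioc] at hn
    rw [Finset.mem_coe, mem_filter, mem_Ioc]
    beta_reduce
    exact ⟨by omega, h n (by omega) (by omega) hn.2⟩
  · intro n _ m _ h'
    simp only at h'
    omega

open Classical in
/-- **All but boundedly many scales, in every interval of length `x ^ θ`.** -/
theorem result :
    (∀ θ : ℝ, 0 < θ → θ ≤ 1 → ∀ η : ℝ, 0 < η → ∃ Λ : ℝ, ∀ δ : ℝ, 0 < δ → ∃ K : ℕ,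
      ∀ᶠ X : ℕ in atTop, ∀ Y : ℕ, (X : ℝ) ^ θ ≤ Y → Y ≤ X →
        (((Finset.Ioc X (X + Y)).filter (fun n => K < badScales 0 Λ δ Y n)).card : ℝ) ≤ η * Y) ∧
    (∃ θ : ℝ, 0 < θ ∧ θ < 1 ∧ ShortIntervals θ) ∧
    (∀ θ : ℝ, 0 < θ → θ ≤ 1 → ShortIntervals θ → ∃ c₁ c₂ κ : ℝ, 0 < c₁ ∧ 0 < c₂ ∧ 0 < κ ∧
      ∀ δ : ℝ, 0 < δ → ∃ K : ℕ, ∀ᶠ X : ℕ in atTop, ∀ Y : ℕ, (X : ℝ) ^ θ ≤ Y → Y ≤ X →
        κ * Y ≤ (((Finset.Ioc X (X + Y)).filter (fun n => badScales c₁ c₂ δ Y n ≤ K)).card : ℝ)) := by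
  refine ⟨?_, Pool.Agent.H932R4.MO.exists_short, ?_⟩
  · intro θ h0 h1 η hη
    obtain ⟨C1, C2, hC1, hC2, hin⟩ := input θ h0 h1
    refine ⟨2 * (4 * C1 / η), ?_⟩
    intro δ hδ
    obtain ⟨K, B0, hB0, hall⟩ := scales_all C1 C2 hC1 hC2 (δ / 2) η (by positivity) hη
    refine ⟨K, ?_⟩
    filter_upwards [hin B0] with X hX
    intro Y hY hYX
    obtain ⟨hX3, hL2, hB, hup, hmom⟩ := hX Y hY hYX
    have h2 := hall (PX (X - Y)) (PX (X - Y)) Y (Real.log X) hL2 hB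
      (fun n h => h) hup hmom
    refine le_trans ?_ h2
    have h3 := card_shift X Y hYX (fun n => K < badScales 0 (2 * (4 * C1 / η)) δ Y n)
      (fun n => K < ((range (Nat.log 2 Y + 1)).filter (fun j => Real.log X ≤ (2 : ℝ) ^ j ∧
          ¬ Good (PX (X - Y)) 0 (4 * C1 / η) (δ / 2) (Real.log X) n j)).card)
      (fun n hn1 hn2 hn3 => lt_of_lt_of_le hn3
        (bad_shift 0 (4 * C1 / η) δ le_rfl hδ X Y n hX3 hYX hn1 hn2))
    exact cast_helper h3
  · intro θ h0 h1 hS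
    obtain ⟨cS, hcS, X₀, hX₀, hS⟩ := hS
    obtain ⟨C1, C2, hC1, hC2, hin⟩ := input θ h0 h1
    obtain ⟨c₁, c₂, κ, hc₁, hc₂, hκ, hpos⟩ := scales_pos cS C1 C2 hcS hC1 hC2
    refine ⟨c₁, 2 * c₂, κ, hc₁, by positivity, hκ, ?_⟩
    intro δ hδ
    obtain ⟨K, B0, hB0, hall⟩ := hpos (δ / 2) (by positivity)
    refine ⟨K, ?_⟩
    filter_upwards [hin B0, eventually_ge_atTop X₀] with X hX hXX
    intro Y hY hYX
    obtain ⟨hX3, hL2, hB, hup, hmom⟩ := hX Y hY hYX
    have hlow : cS * Y / Real.log X ≤ (co (PX (X - Y)) Y (2 * Y) : ℝ) := by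
      rw [co_shift]
      have e1 : Y + (X - Y) = X := by omega
      have e2 : 2 * Y + (X - Y) = X + Y := by omega
      rw [e1, e2]
      exact hS X Y hXX hY hYX
    have h2 := hall (PX (X - Y)) (PX (X - Y)) Y (Real.log X) hL2 hB
      (fun n h => h) hup hlow hmom
    refine h2.trans ?_
    have h3 := card_shift' X Y (fun n => badScales c₁ (2 * c₂) δ Y n ≤ K)
      (fun n => ((range (Nat.log 2 Y + 1)).filter (fun j => Real.log X ≤ (2 : ℝ) ^ j ∧
          ¬ Good (PX (X - Y)) c₁ c₂ (δ / 2) (Real.log X) n j)).card ≤ K) hYX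
      (fun n hn1 hn2 hn3 =>
        (bad_shift c₁ c₂ δ hc₁.le hδ X Y n hX3 hYX hn1 hn2).trans hn3)
    exact cast_helper h3

end Pool.Agent.Results.MP_31d0eb_nt.FewBadScales
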