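import Pool.Agent.W123.FS.Main3

/-!
# Asymptotic law with a local density in intervals of length `n ^ a`, `a` arbitrarily small

`piS n H` is the number `π(n, H)` of primes in `(n, n + H]`.

For every `δ` in `(0, 1)` there are `c, lam > 0` such that for all `ε, η > 0` there is `κ > 0` such
that for all large `N` there is an exponent `a` with `κ ≤ a` and `a + κ ≤ ε` such that

* for all but at most `η N` integers `n < N` there is a local density `θ ≥ 0` with
  `|π(n, H) log n / H - θ| ≤ η` for all real `H` in `[n ^ a, n ^ (a + κ)]` at once;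
* for at least `c N` integers `n < N` this holds with some `θ` in `[1 - δ, lam]`.
-/

set_option autoImplicit false

open Filter Topology
open Pool.Agent.H357R2.SI

namespace Pool.Agent.Results.MP_31d0eb_nt.LocalDensities

open Classical in
theorem result :
    ∀ δ : ℝ, 0 < δ → δ < 1 → ∃ c lam : ℝ, 0 < c ∧ 0 < lam ∧
      ∀ ε η : ℝ, 0 < ε → 0 < η → ∃ κ : ℝ, 0 < κ ∧ ∀ᶠ N : ℕ in atTop,
        ∃ a : ℝ, κ ≤ a ∧ a + κ ≤ ε ∧
          (((Finset.range N).filter (fun n : ℕ => ¬ ∃ θ : ℝ, 0 ≤ θ ∧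
            ∀ H : ℝ, (n : ℝ) ^ a ≤ H → H ≤ (n : ℝ) ^ (a + κ) →
              |(piS n H : ℝ) * Real.log n / H - θ| ≤ η)).card : ℝ) ≤ η * N ∧
          c * N ≤ (((Finset.range N).filter (fun n : ℕ => ∃ θ : ℝ, 1 - δ ≤ θ ∧ θ ≤ lam ∧
            ∀ H : ℝ, (n : ℝ) ^ a ≤ H → H ≤ (n : ℝ) ^ (a + κ) →
              |(piS n H : ℝ) * Real.log n / H - θ| ≤ η)).card : ℝ) :=
  fun δ h1 h2 => Pool.Agent.W123.FS.part3 δ h1 h2

end Pool.Agent.Results.MP_31d0eb_nt.LocalDensities
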