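import Mathlib
import Pool.Agent.W301.SS.Out3

/-!
Averages of `π(x, H) log x / H` over the points `x` of the translates of arbitrary sets, for all
`H ≥ x^ε`.
-/

set_option autoImplicit false

/-- There is `c > 0` such that for every `0 < ε < 1` the following holds.

(1) For all `δ > 0` and `C`, all large `N` and every set `A` of at least `N / (log N)^C` integers
in `[1, N]`, all `b ∈ [1, N]` outside a set of at most `N / (log N)^C` exceptions have the property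
that for all real `H` with `N^ε ≤ H ≤ N` the average of `π(x, H) log x / H` over the points
`x = a + b`, `a ∈ A`, differs from `1` by at most `δ`.

(2) There is `κ > 0` such that for all large `N` and every set `A` of at least `N^(1-κ)` integers
in `[1, N]`, all `b ∈ [1, N]` outside a set of at most `N^(1-κ)` exceptions have the property that
for all real `H` with `N^ε ≤ H ≤ N` the average of `π(x, H) log x / H` over the points `x = a + b`,
`a ∈ A`, lies between `c` and `6`, and `π(x, H) log x / H ≥ c` for at least `c |A|` of them. -/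
theorem Pool.Agent.Results.MP_31d0eb_nt.TranslatesOfSets.result :
    ∃ c : ℝ, 0 < c ∧ ∀ ε : ℝ, 0 < ε → ε < 1 →
      (∀ δ : ℝ, 0 < δ → ∀ C : ℕ, ∃ N₀ : ℕ, ∀ N : ℕ, N₀ ≤ N → ∀ A : Finset ℕ,
        A ⊆ Finset.Icc 1 N → (N : ℝ) / Real.log N ^ C ≤ A.card →
        ∃ E : Finset ℕ, E ⊆ Finset.Icc 1 N ∧ (E.card : ℝ) ≤ (N : ℝ) / Real.log N ^ C ∧
          ∀ b ∈ Finset.Icc 1 N, b ∉ E → ∀ H : ℝ, (N : ℝ) ^ ε ≤ H → H ≤ N →
            |(∑ a ∈ A, ((Nat.primeCounting ⌊((a + b : ℕ) : ℝ) + H⌋₊ : ℝ) -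
              Nat.primeCounting (a + b)) * Real.log ((a + b : ℕ) : ℝ) / H) / A.card - 1| ≤ δ) ∧
      ∃ κ : ℝ, 0 < κ ∧ ∃ N₀ : ℕ, ∀ N : ℕ, N₀ ≤ N → ∀ A : Finset ℕ, A ⊆ Finset.Icc 1 N →
        (N : ℝ) ^ (1 - κ) ≤ A.card →
        ∃ E : Finset ℕ, E ⊆ Finset.Icc 1 N ∧ (E.card : ℝ) ≤ (N : ℝ) ^ (1 - κ) ∧
          ∀ b ∈ Finset.Icc 1 N, b ∉ E → ∀ H : ℝ, (N : ℝ) ^ ε ≤ H → H ≤ N →
            c ≤ (∑ a ∈ A, ((Nat.primeCounting ⌊((a + b : ℕ) : ℝ) + H⌋₊ : ℝ) -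
              Nat.primeCounting (a + b)) * Real.log ((a + b : ℕ) : ℝ) / H) / A.card ∧
            (∑ a ∈ A, ((Nat.primeCounting ⌊((a + b : ℕ) : ℝ) + H⌋₊ : ℝ) -
              Nat.primeCounting (a + b)) * Real.log ((a + b : ℕ) : ℝ) / H) / A.card ≤ 6 ∧
            c * A.card ≤ (Set.ncard {a : ℕ | a ∈ A ∧
              c ≤ ((Nat.primeCounting ⌊((a + b : ℕ) : ℝ) + H⌋₊ : ℝ) -
              Nat.primeCounting (a + b)) * Real.log ((a + b : ℕ) : ℝ) / H} : ℝ) := by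
  obtain ⟨c, hc0, hmain⟩ := Pool.Agent.W301.SS.rightPow
  refine ⟨c, hc0, fun ε hε hε1 => ⟨?_, ?_⟩⟩
  · intro δ hδ C
    have hm : 0 < min δ 1 := lt_min hδ one_pos
    obtain ⟨K, hK⟩ := Pool.Agent.W301.SS.avgVar (min δ 1) hm (min_le_right _ _) C
    obtain ⟨N₀, hN₀⟩ := Filter.eventually_atTop.1
      ((hK.and (Pool.Agent.W301.SS.ev_L 1)).and (Pool.Agent.W301.SS.ev_log K 1 ε hε))
    refine ⟨max N₀ 3, fun N hN A hA hAN => ?_⟩
    obtain ⟨⟨h1, h2⟩, h3⟩ := hN₀ N ((le_max_left _ _).trans hN)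
    have hℓ : 0 < Real.log N := by linarith
    have hp : 0 < Real.log N ^ C := by positivity
    rw [div_le_iff₀ hp] at hAN
    obtain ⟨E, hE1, hE2, hE3⟩ := h1 A (fun a ha => (Finset.mem_Icc.1 (hA ha)).2) hAN
    refine ⟨E, hE1, by rw [le_div_iff₀ hp]; exact hE2, fun b hb hbE H hH1 hH2 => ?_⟩
    have hH3 : Real.log N ^ K ≤ H := by linarith
    have hH0 : 0 < H := lt_of_lt_of_le (by positivity) hH3
    have h4 := (hE3 b hb hbE).2.1 H hH3 hH2 (fun _ => H) (fun _ _ => ⟨by nlinarith, le_rfl⟩)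
    have e : ∀ a ∈ A, ((Nat.primeCounting ⌊((a + b : ℕ) : ℝ) + H⌋₊ : ℝ) -
        Nat.primeCounting (a + b)) * Real.log ((a + b : ℕ) : ℝ) / H =
        ((Nat.primeCounting ⌊((a + b : ℕ) : ℝ) + H⌋₊ : ℝ) -
        Nat.primeCounting (a + b)) / (H / Real.log ((a + b : ℕ) : ℝ)) := by
      intro a _
      rw [div_div_eq_mul_div]
    rw [Finset.sum_congr rfl e]
    exact h4.trans (min_le_left _ _)
  · obtain ⟨κ, hκ0, hev⟩ := hmain ε hε hε1
    obtain ⟨N₀, hN₀⟩ := Filter.eventually_atTop.1 hev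
    refine ⟨κ, hκ0, N₀, fun N hN A hA hAN => ?_⟩
    exact hN₀ N hN A (fun a ha => (Finset.mem_Icc.1 (hA ha)).2) hAN
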